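import Pool.Agent.R666.OddMon

/-!
# A group in which every centralizer is finite or everything, but which is not an FNI-group
-/

set_option autoImplicit false

namespace Pool.Agent.Results.MP_5bd9ee_al.NotFNI

open Pool.Agent.TH64 Pool.Agent.TH787.MonP Pool.Agent.R666.OddMon

/-- the centralizer topology: the complements of its closed sets are generated by the complement
of the empty set and the complements of all cosets `h * C_G(g)` -/
@[reducible] def centralizerTopology (G : Type) [Group G] : TopologicalSpace G :=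
  TopologicalSpace.generateFrom
    ({Set.univ} ∪ {U : Set G | ∃ h g : G, Uᶜ = {x | ∃ c : G, c * g = g * c ∧ x = h * c}})

/-- the cofinite topology: the nonempty open sets are the sets with finite complement -/
@[reducible] def cofTopology (G : Type) : TopologicalSpace G where
  IsOpen s := s.Nonempty → sᶜ.Finite
  isOpen_univ := by simp
  isOpen_inter s t hs ht := by
    rintro ⟨x, hxs, hxt⟩
    rw [Set.compl_inter]
    exact (hs ⟨x, hxs⟩).union (ht ⟨x, hxt⟩)
  isOpen_sUnion s hs := by
    rintro ⟨x, t, hts, hxt⟩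
    exact (hs t hts ⟨x, hxt⟩).subset
      (Set.compl_subset_compl.2 (Set.subset_sUnion_of_mem hts))

/-- `G` is cofinite for the join of the centralizer topology and the cofinite topology (the
coarsest topology finer than both) -/
def CCen (G : Type) [Group G] : Prop :=
  centralizerTopology G ⊓ cofTopology G = cofTopology G

/-- an FNI-group: every subgroup has finite index in its normalizer or is normal -/
def IsFNI (G : Type) [Group G] : Prop :=
  ∀ H : Subgroup G, (H.subgroupOf (Subgroup.normalizer (H : Set G))).FiniteIndex ∨ H.Normal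

theorem ccen_of_centralizers {G : Type} [Group G]
    (h : ∀ g : G, ((Subgroup.centralizer {g} : Subgroup G) : Set G).Finite ∨
      Subgroup.centralizer {g} = (⊤ : Subgroup G)) : CCen G := by
  unfold CCen
  rw [inf_eq_right]
  unfold centralizerTopology
  apply le_generateFrom
  rintro U (hU | ⟨a, g, hU⟩)
  · rw [Set.mem_singleton_iff.1 hU]
    exact (cofTopology G).isOpen_univ
  · show U.Nonempty → Uᶜ.Finite
    intro hne
    have hcos : {x : G | ∃ c : G, c * g = g * c ∧ x = a * c} =
        (fun c => a * c) '' ((Subgroup.centralizer {g} : Subgroup G) : Set G) := by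
      ext x
      constructor
      · rintro ⟨c, hc, rfl⟩
        refine ⟨c, ?_, rfl⟩
        exact Subgroup.mem_centralizer_singleton_iff.2 hc
      · rintro ⟨c, hc, rfl⟩
        exact ⟨c, Subgroup.mem_centralizer_singleton_iff.1 hc, rfl⟩
    rw [hU, hcos]
    rcases h g with h | h
    · exact h.image _
    · exfalso
      obtain ⟨u, hu⟩ := hne
      have h1 : u ∈ Uᶜ := by
        rw [hU, hcos]
        refine ⟨a⁻¹ * u, ?_, by simp⟩
        rw [h]
        exact Subgroup.mem_top _
      exact h1 hu

/-- the permutations of `ZMod 7` -/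
def gens : Fin 2 → Equiv.Perm (ZMod 7) := fun i =>
  if i = 0 then ⟨fun x => 2 * x, fun x => 4 * x, by decide, by decide⟩
  else ⟨fun x => x + 1, fun x => x - 1, by decide, by decide⟩

/-- the homomorphism onto the group of order 21 -/
def phi : F →* Equiv.Perm (ZMod 7) := FreeGroup.lift gens

theorem phi_shape (g : F) : ∃ (k : ℕ) (b : ZMod 7), ∀ x, phi g x = 2 ^ k * x + b := by
  induction g using FreeGroup.induction_on with
  | C1 => exact ⟨0, 0, by simp⟩
  | of i =>
    fin_cases i
    · exact ⟨1, 0, by intro x; simp [phi, gens]⟩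
    · exact ⟨0, 1, by intro x; simp [phi, gens]⟩
  | inv_of i _ =>
    fin_cases i
    · refine ⟨2, 0, ?_⟩
      intro x
      rw [map_inv]
      have : phi (FreeGroup.of 0) = gens 0 := by simp [phi]
      have h2 : (gens 0)⁻¹ x = 4 * x := rfl
      show (phi (FreeGroup.of 0))⁻¹ x = _
      rw [this, h2]
      ring
    · refine ⟨0, -1, ?_⟩
      intro x
      rw [map_inv]
      have : phi (FreeGroup.of 1) = gens 1 := by simp [phi]
      have h2 : (gens 1)⁻¹ x = x - 1 := rfl
      show (phi (FreeGroup.of 1))⁻¹ x = _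
      rw [this, h2]
      ring
  | mul x y hx hy =>
    obtain ⟨k, b, hk⟩ := hx
    obtain ⟨l, c, hl⟩ := hy
    refine ⟨k + l, 2 ^ k * c + b, ?_⟩
    intro z
    rw [map_mul, Equiv.Perm.mul_apply, hl, hk]
    ring

theorem seven (b : ZMod 7) : 7 * b = 0 := by
  have : (7 : ZMod 7) = 0 := by decide
  rw [this, zero_mul]

theorem phi_pow (g : F) : phi (g ^ 21) = 1 := by
  obtain ⟨k, b, hk⟩ := phi_shape g
  have h8 : ((2 : ZMod 7) ^ k) ^ 3 = 1 := by
    rw [← pow_mul, mul_comm, pow_mul]
    have : (2 : ZMod 7) ^ 3 = 1 := by decide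
    rw [this, one_pow]
  obtain ⟨a, ha⟩ : ∃ a : ZMod 7, a = 2 ^ k := ⟨_, rfl⟩
  rw [← ha] at hk h8
  have h3 : ∀ x, (phi g ^ 3) x = x + (a ^ 2 + a + 1) * b := by
    intro x
    have e : (phi g ^ 3) x = phi g (phi g (phi g x)) := rfl
    rw [e, hk, hk, hk]
    linear_combination x * h8
  have hj : ∀ (j : ℕ) (x : ZMod 7), ((phi g ^ 3) ^ j) x = x + j * ((a ^ 2 + a + 1) * b) := by
    intro j
    induction j with
    | zero => intro x; simp
    | succ j ih =>
      intro x
      rw [pow_succ, Equiv.Perm.mul_apply, ih, h3]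
      push_cast
      ring
  rw [map_pow]
  have e21 : phi g ^ 21 = (phi g ^ 3) ^ 7 := by rw [← pow_mul]
  ext1 x
  rw [e21, hj, Equiv.Perm.one_apply]
  have := seven ((a ^ 2 + a + 1) * b)
  push_cast
  rw [this, add_zero]

theorem mod_infinite {R : Subgroup F} [R.Normal] (h1 : ∀ g : F, ∃ k : ℕ, g ^ (5 ^ k) ∈ R)
    (h2 : cm ∉ R) (h3 : ∀ t, t ∉ R → ∃ y : F, Cen R t (Subgroup.zpowers y)) :
    Infinite (F ⧸ R) := by
  by_contra hinf
  rw [not_infinite_iff_finite] at hinf
  have : Fact (Nat.Prime 5) := ⟨by norm_num⟩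
  obtain ⟨π, hπs, hπ⟩ : ∃ π : F →* F ⧸ R, Function.Surjective π ∧ ∀ g, π g = 1 ↔ g ∈ R :=
    ⟨QuotientGroup.mk' R, QuotientGroup.mk'_surjective R, fun g => QuotientGroup.eq_one_iff g⟩
  have hP : IsPGroup 5 (F ⧸ R) := by
    intro g
    obtain ⟨g, rfl⟩ := hπs g
    obtain ⟨k, hk⟩ := h1 g
    exact ⟨k, by rw [← map_pow]; exact (hπ _).2 hk⟩
  have : Nontrivial (F ⧸ R) := ⟨π cm, 1, fun h => h2 ((hπ _).1 h)⟩
  have hZ := hP.center_nontrivial
  obtain ⟨⟨z, hz⟩, hz1⟩ := exists_ne (1 : Subgroup.center (F ⧸ R))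
  have hz2 : z ≠ 1 := fun h => hz1 (Subtype.ext h)
  obtain ⟨t, rfl⟩ := hπs z
  have ht : t ∉ R := fun h => hz2 ((hπ _).2 h)
  obtain ⟨y, hy⟩ := h3 t ht
  have hall : ∀ h : F, ∃ l : ℤ, π h = π y ^ l := by
    intro h
    have hc : t⁻¹ * h * t * h⁻¹ ∈ R := by
      rw [← hπ]
      simp only [map_mul, map_inv]
      rw [mul_assoc (π t)⁻¹, Subgroup.mem_center_iff.1 hz (π h)]
      group
    obtain ⟨_, ⟨l, rfl⟩, hl⟩ := hy h hc
    refine ⟨l, ?_⟩
    rw [← hπ] at hl
    simp only [map_mul, map_inv, map_zpow] at hl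
    exact (inv_mul_eq_one.1 hl).symm
  apply h2
  rw [← hπ]
  obtain ⟨a, ha⟩ := hall (FreeGroup.of 0)
  obtain ⟨b, hb⟩ := hall (FreeGroup.of 1)
  simp only [cm, map_mul, map_inv]
  rw [ha, hb, ← zpow_neg, ← zpow_neg, ← zpow_add, ← zpow_add, ← zpow_add]
  have : -a + b + a + -b = 0 := by ring
  rw [this, zpow_zero]

/-- **The answer is no.** There is a group which is cofinite for the topology generated by the
centralizer topology and the cofinite topology (every centralizer is finite or the whole group),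
but which has a subgroup that is not normal and has infinite index in its normalizer. -/
theorem result : ∃ (G : Type) (_ : Group G), CCen G ∧
    (∀ g : G, ((Subgroup.centralizer {g} : Subgroup G) : Set G).Finite ∨
      Subgroup.centralizer {g} = (⊤ : Subgroup G)) ∧ ¬ IsFNI G := by
  obtain ⟨R1, hR1n, h1, h2, h3⟩ := limit (p := 5) (by decide) (by norm_num)
  have hinf := mod_infinite h1 h2 h3
  have hDn : (R1 ⊓ phi.ker).Normal := inferInstance
  have hDodd : ∀ g : F, ∃ d : ℕ, Odd d ∧ g ^ d ∈ R1 ⊓ phi.ker := by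
    intro g
    obtain ⟨k, hk⟩ := h1 g
    refine ⟨5 ^ k * 21, (Odd.pow (by decide)).mul (by decide), ?_, ?_⟩
    · rw [pow_mul]
      exact R1.pow_mem hk _
    · show phi (g ^ (5 ^ k * 21)) = 1
      rw [pow_mul]
      exact phi_pow _
  obtain ⟨R, hRn, hRD, htor, hcen⟩ := limit' hDn hDodd
  have hcent : ∀ g : F ⧸ R, ((Subgroup.centralizer {g} : Subgroup (F ⧸ R)) : Set (F ⧸ R)).Finite ∨
      Subgroup.centralizer {g} = (⊤ : Subgroup (F ⧸ R)) := by
    intro g
    by_cases hg : g = 1
    · right
      rw [hg, eq_top_iff]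
      intro x _
      rw [Subgroup.mem_centralizer_singleton_iff, mul_one, one_mul]
    · exact Or.inl (cen_finite htor hcen g hg)
  refine ⟨F ⧸ R, inferInstance, ccen_of_centralizers hcent, hcent, ?_⟩
  -- the two homomorphisms from the quotient
  have hphiR : R ≤ phi.ker := hRD.trans inf_le_right
  have hR1R : R ≤ (QuotientGroup.mk' R1).ker := by
    rw [QuotientGroup.ker_mk']
    exact hRD.trans inf_le_left
  let φ : F ⧸ R →* Equiv.Perm (ZMod 7) := QuotientGroup.lift R phi hphiR
  let ρ : F ⧸ R →* F ⧸ R1 := QuotientGroup.lift R (QuotientGroup.mk' R1) hR1R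
  have hφ : ∀ g : F, φ (QuotientGroup.mk' R g) = phi g := fun g => rfl
  have hρ : ∀ g : F, ρ (QuotientGroup.mk' R g) = QuotientGroup.mk' R1 g := fun g => rfl
  have hρs : Function.Surjective ρ := by
    intro x
    obtain ⟨g, rfl⟩ := QuotientGroup.mk'_surjective R1 x
    exact ⟨QuotientGroup.mk' R g, hρ g⟩
  let K : Subgroup (F ⧸ R) := (MulAction.stabilizer (Equiv.Perm (ZMod 7)) (0 : ZMod 7)).comap φ
  have hK : ∀ g, g ∈ K ↔ φ g 0 = 0 := fun g => Iff.rfl
  intro hFNI
  rcases hFNI (K ⊓ ρ.ker) with hfi | hnorm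
  · -- the index
    have hKN : K ≤ Subgroup.normalizer ((K ⊓ ρ.ker : Subgroup (F ⧸ R)) : Set (F ⧸ R)) := by
      intro k hk
      rw [Subgroup.mem_normalizer_iff]
      intro n
      constructor
      · rintro ⟨hn1, hn2⟩
        exact ⟨K.mul_mem (K.mul_mem hk hn1) (K.inv_mem hk),
          (MonoidHom.normal_ker ρ).conj_mem n hn2 k⟩
      · rintro ⟨hn1, hn2⟩
        constructor
        · have := K.mul_mem (K.mul_mem (K.inv_mem hk) hn1) hk
          have e : k⁻¹ * (k * n * k⁻¹) * k = n := by group
          rw [← e]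
          exact this
        · have := (MonoidHom.normal_ker ρ).conj_mem _ hn2 k⁻¹
          have e : k⁻¹ * (k * n * k⁻¹) * k⁻¹⁻¹ = n := by group
          rw [← e]
          exact this
    have hi1 : (K ⊓ ρ.ker).relIndex K ≠ 0 := by
      have hm := Subgroup.relIndex_mul_relIndex (K ⊓ ρ.ker) K
        (Subgroup.normalizer ((K ⊓ ρ.ker : Subgroup (F ⧸ R)) : Set (F ⧸ R))) inf_le_left hKN
      have hne : (K ⊓ ρ.ker).relIndex
          (Subgroup.normalizer ((K ⊓ ρ.ker : Subgroup (F ⧸ R)) : Set (F ⧸ R))) ≠ 0 :=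
        hfi.index_ne_zero
      intro h0
      rw [h0, zero_mul] at hm
      exact hne hm.symm
    have hi2 : K.index ≠ 0 := by
      have hst : (MulAction.stabilizer (Equiv.Perm (ZMod 7)) (0 : ZMod 7)).index ≠ 0 :=
        Subgroup.FiniteIndex.index_ne_zero
      have : K.index = (MulAction.stabilizer (Equiv.Perm (ZMod 7)) (0 : ZMod 7)).relIndex
          φ.range := by
        exact Subgroup.index_comap _ φ
      rw [this]
      exact Subgroup.FiniteIndex.index_ne_zero
    have hi3 : (K ⊓ ρ.ker).index ≠ 0 := by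
      rw [← Subgroup.relIndex_mul_index (inf_le_left : K ⊓ ρ.ker ≤ K)]
      exact mul_ne_zero hi1 hi2
    have hi4 : ρ.ker.index ≠ 0 := by
      intro h0
      apply hi3
      have := Subgroup.index_dvd_of_le (inf_le_right : K ⊓ ρ.ker ≤ ρ.ker)
      rw [h0] at this
      exact Nat.eq_zero_of_zero_dvd this
    rw [Subgroup.index_ker, Set.range_eq_univ.2 hρs |> fun h => (SetLike.coe_injective
      (by rw [MonoidHom.coe_range, h]; rfl) : ρ.range = ⊤)] at hi4
    have hfin : Finite (F ⧸ R1) := by
      have h5 := Nat.finite_of_card_ne_zero hi4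
      exact Finite.of_equiv _ (Subgroup.topEquiv (G := F ⧸ R1)).toEquiv
    exact not_finite (F ⧸ R1)
  · -- not normal
    obtain ⟨k, hk⟩ := h1 (FreeGroup.of 0)
    have hmem : QuotientGroup.mk' R (FreeGroup.of 0 ^ 5 ^ k) ∈ K ⊓ ρ.ker := by
      constructor
      · show φ (QuotientGroup.mk' R (FreeGroup.of 0 ^ 5 ^ k)) 0 = 0
        rw [hφ]
        have h6 : ∀ j : ℕ, phi (FreeGroup.of 0 ^ j) 0 = 0 := by
          intro j
          induction j with
          | zero => simp
          | succ j ih =>
            rw [pow_succ, map_mul, Equiv.Perm.mul_apply]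
            have : phi (FreeGroup.of 0) 0 = 0 := by simp [phi, gens]
            rw [this, ih]
        exact h6 _
      · show ρ (QuotientGroup.mk' R (FreeGroup.of 0 ^ 5 ^ k)) = 1
        rw [hρ]
        exact (QuotientGroup.eq_one_iff _).2 hk
    have hc := (hnorm.conj_mem _ hmem (QuotientGroup.mk' R (FreeGroup.of 1))).1
    have hc' : φ (QuotientGroup.mk' R (FreeGroup.of 1 * FreeGroup.of 0 ^ 5 ^ k *
        (FreeGroup.of 1)⁻¹)) 0 = 0 := by
      rw [map_mul (QuotientGroup.mk' R), map_mul (QuotientGroup.mk' R),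
        map_inv (QuotientGroup.mk' R)]
      exact hc
    rw [hφ, map_mul, map_mul, Equiv.Perm.mul_apply, Equiv.Perm.mul_apply] at hc'
    have h7 : phi (FreeGroup.of 1)⁻¹ 0 = -1 := by
      rw [map_inv]
      have : phi (FreeGroup.of 1) = gens 1 := by simp [phi]
      rw [this]
      decide
    have h8 : ∀ (j : ℕ) (x : ZMod 7), phi (FreeGroup.of 0 ^ j) x = 2 ^ j * x := by
      intro j
      induction j with
      | zero => intro x; simp
      | succ j ih =>
        intro x
        rw [pow_succ, map_mul, Equiv.Perm.mul_apply]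
        have : phi (FreeGroup.of 0) x = 2 * x := by simp [phi, gens]
        rw [this, ih]
        ring
    have h9 : ∀ x : ZMod 7, phi (FreeGroup.of 1) x = x + 1 := by
      intro x
      simp [phi, gens]
    rw [h7, h8, h9] at hc'
    have h10 : ∀ j : ℕ, (2 : ZMod 7) ^ (5 ^ j) = 2 ∨ (2 : ZMod 7) ^ (5 ^ j) = 4 := by
      intro j
      induction j with
      | zero => left; norm_num
      | succ j ih =>
        rw [pow_succ 5 j, pow_mul]
        rcases ih with ih | ih
        · right
          rw [ih]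
          decide
        · left
          rw [ih]
          decide
    rcases h10 k with h | h
    · rw [h] at hc'
      revert hc'
      decide
    · rw [h] at hc'
      revert hc'
      decide

end Pool.Agent.Results.MP_5bd9ee_al.NotFNI
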